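import Pool.Agent.MWS.StmtsA

set_option autoImplicit false

namespace Pool.Agent.MWS.H77

open Pool.Agent.Helper14_MV Pool.Agent.Helper2_MV Pool.Agent.MVO Pool.Agent.MWL

theorem flat_rep (k c : ℕ) : (List.replicate k c).flatMap (fun _ => [0]) = List.replicate k 0 := by
  induction k with
  | zero => rfl
  | succ k ih =>
    rw [List.replicate_succ, List.flatMap_cons, ih, List.replicate_succ]
    rfl

theorem key (β θ : FIC) (hβ : ApI β) (hle : β ≤ θ) (hnc : NC2 θ) (u v : List ℕ) (h : RR θ u v)
    (c : ℕ) : ¬ (min (u.count c) 2 < min (v.count c) 2) := by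
  intro hlt
  have ap : RR θ [0, 0] [0, 0, 0] := hle _ _ hβ.ap
  have ic : RR θ [0, 1, 0, 1] [1, 0, 1, 0] := hle _ _ hβ.ic
  have hsq : ∀ m, 2 ≤ m → RR θ (List.replicate m 0) [0, 0] := by
    intro m hm
    induction m, hm using Nat.le_induction with
    | base => exact RR.refl _
    | succ m _ ih =>
      have h1 := ih.append (RR.refl (β := θ) [0])
      have e : List.replicate m 0 ++ [0] = List.replicate (m + 1) 0 := by
        rw [List.replicate_succ']
      rw [e] at h1
      exact θ.trans h1 ap.symm
  have h1 := (h.filter (fun d => d == c)).sub (fun _ => [0])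
  have e1 : ∀ w : List ℕ, w.filter (fun d => d == c) = List.replicate (w.count c) c :=
    fun w => List.filter_beq c
  rw [e1, e1, flat_rep, flat_rep] at h1
  have hA : RR θ [0] [0, 0] := by
    rcases Nat.lt_or_ge (u.count c) 1 with h0 | h0
    · have hu : u.count c = 0 := by omega
      rw [hu] at h1
      have h2 := h1.append (RR.refl (β := θ) [0])
      have e : List.replicate (v.count c) 0 ++ [0] = List.replicate (v.count c + 1) 0 := by
        rw [List.replicate_succ']
      rw [e] at h2
      exact θ.trans h2 (hsq _ (by omega))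
    · have hu : u.count c = 1 := by omega
      rw [hu] at h1
      exact θ.trans h1 (hsq _ (by omega))
  have hB : RR θ [0, 1] [0, 1, 0, 1] := hA.sub (fun _ => [0, 1])
  have hC : RR θ [1, 0] [1, 0, 1, 0] := hA.sub (fun _ => [1, 0])
  exact hnc (θ.trans hB (θ.trans ic hC.symm))

theorem cap : CapStmt := by
  intro β θ hβ hle hnc u v h c
  have h1 := key β θ hβ hle hnc u v h c
  have h2 := key β θ hβ hle hnc v u h.symm c
  omega

end Pool.Agent.MWS.H77
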