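import Pool.Agent.MWS.StmtsW

set_option autoImplicit false

namespace Pool.Agent.MWS.H77

open Pool.Agent.Helper14_MV Pool.Agent.Helper2_MV Pool.Agent.MVO Pool.Agent.MWL

theorem te_congr {θ : FIC} {k : ℕ} {a b a' b' : ℕ → ℕ} {i : ℕ}
    (h : ∀ j ≤ k, (a j = 0 ↔ a' j = 0) ∧ (b j = 0 ↔ b' j = 0)) (hT : TE θ k a b i) :
    TE θ k a' b' i := by
  have hh : ∀ (l : List ℕ) (e : ℕ → Bool), asm k (cb a' b' e i l) = asm k (cb a b e i l) := by
    intro l e
    refine asm_congr fun j hj => ?_
    obtain ⟨h1, h2⟩ := h j hj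
    have e1 : hv (a' j) = hv (a j) := by
      unfold hv
      by_cases h0 : a j = 0
      · rw [if_pos h0, if_pos (h1.1 h0)]
      · rw [if_neg h0, if_neg (fun h3 => h0 (h1.2 h3))]
    have e2 : hv (b' j) = hv (b j) := by
      unfold hv
      by_cases h0 : b j = 0
      · rw [if_pos h0, if_pos (h2.1 h0)]
      · rw [if_neg h0, if_neg (fun h3 => h0 (h2.2 h3))]
    simp only [cb, e1, e2]
  intro e
  have := hT e
  unfold edg at this ⊢
  simp only at this ⊢
  rw [hh, hh]
  exact this

theorem dbx_ex (hD : DbxStmt) {β : FIC} (hβ : ClX β) {k : ℕ} {B : ℕ → List ℕ} (hB : OkB k B) :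
    ∃ Bd : ℕ → List ℕ, RR β (asm k B) (asm k Bd) ∧ OkB k Bd ∧
      (∀ j c, (Bd j).count c = 2 * (B j).count c) ∧
      ∀ j x y, x ≠ y → (Bef (Bd j) x y ↔ Bef (B j) x y) :=
  ⟨fun j => (B j).flatMap (fun c => [c, c]), hD β hβ k B hB⟩

theorem nfv (hM : MasStmt) (hD : DbxStmt) : NfvStmt := by
  intro V β θ hV hβ hle k B B' hB hB' hS H
  obtain ⟨Bd, r1, ok1, c1, b1⟩ := dbx_ex hD hβ.toClX hB
  obtain ⟨Bd', r2, ok2, c2, b2⟩ := dbx_ex hD hβ.toClX hB'
  have hrr : ∀ l l' : List ℕ, RR β l l' → RR θ l l' := fun l l' h => hle _ _ h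
  refine θ.trans (hrr _ _ r1) (θ.trans ?_ (hrr _ _ r2).symm)
  refine hM β θ hβ.toApI hβ.itr hle k Bd Bd' ok1 ok2 ?_ ?_
  · intro c _ j hj
    show (Bd j).count c = (Bd' j).count c ∨ (2 ≤ (Bd j).count c ∧ 2 ≤ (Bd' j).count c)
    rw [c1, c2]
    have h1 := hS j hj c
    rw [← List.count_pos_iff, ← List.count_pos_iff] at h1
    omega
  · intro C i A D x y hC hsh hi hCi hxy hxD hyA hbef
    have hmx : x ∈ C i := by rw [hCi]; simp
    have hmy : y ∈ C i := by rw [hCi]; simp
    have hsx := hsh x (hC.ok i hi x hmx)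
    have hsy := hsh y (hC.ok i hi y hmy)
    have hsx' : ∀ j ≤ k, 2 * (B j).count x = (C j).count x ∨
        (2 ≤ 2 * (B j).count x ∧ 2 ≤ (C j).count x) := by
      intro j hj
      have := hsx j hj
      change (Bd j).count x = (C j).count x ∨ (2 ≤ (Bd j).count x ∧ 2 ≤ (C j).count x) at this
      rwa [c1] at this
    have hsy' : ∀ j ≤ k, 2 * (B j).count y = (C j).count y ∨
        (2 ≤ 2 * (B j).count y ∧ 2 ≤ (C j).count y) := by
      intro j hj
      have := hsy j hj
      change (Bd j).count y = (C j).count y ∨ (2 ≤ (Bd j).count y ∧ 2 ≤ (C j).count y) at this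
      rwa [c1] at this
    have hsup : ∀ j ≤ k, (ty B x j = 0 ↔ ty C x j = 0) ∧ (ty B y j = 0 ↔ ty C y j = 0) := by
      intro j hj
      have h1 := hsx' j hj
      have h2 := hsy' j hj
      show ((B j).count x = 0 ↔ (C j).count x = 0) ∧ ((B j).count y = 0 ↔ (C j).count y = 0)
      omega
    have hxA : x ∈ A := by
      have h1 := hsx' i hi
      have h2 : (C i).count x = A.count x + 1 := by
        rw [hCi, List.count_append, List.count_cons_self, List.count_cons_of_ne (Ne.symm hxy),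
          List.count_eq_zero_of_not_mem hxD]
      rw [← List.count_pos_iff]
      omega
    have hyD : y ∈ D := by
      have h1 := hsy' i hi
      have h2 : (C i).count y = D.count y + 1 := by
        rw [hCi, List.count_append, List.count_cons_of_ne hxy, List.count_cons_self,
          List.count_eq_zero_of_not_mem hyA]
        omega
      rw [← List.count_pos_iff]
      omega
    refine hβ.xch θ hle k C hC i hi A D x y hCi hxy hxA hxD hyA hyD ?_
    by_cases hv : V k (ty B x) (ty B y) i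
    · right
      refine te_congr hsup (H x y i hxy hv ?_)
      rwa [b1 i x y hxy, b2 i x y hxy] at hbef
    · left
      intro h3
      exact hv (hV.ext k _ _ _ _ i (fun j hj => ⟨(hsup j hj).1.symm, (hsup j hj).2.symm⟩) h3)

end Pool.Agent.MWS.H77
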